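import Pool.Agent.W586.GZ.Stm

/-!
Project GZ (helper586): high weights on dependent sequences (helper701).
-/

set_option autoImplicit false
open Filter Topology

namespace Pool.Agent.W701.GZ

open Pool.Agent.W586.GZ

theorem m_ge (P : Par) (s : ℕ) : 2 ^ (s + 1) ≤ P.m s := by
  induction s with
  | zero => simpa using P.m0
  | succ s ih =>
    rw [P.mS]
    have h := P.mpos s
    calc 2 ^ (s + 1 + 1) = 2 ^ (s + 1) * 2 := pow_succ _ _
      _ ≤ P.m s * 2 := Nat.mul_le_mul_right _ ih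
      _ ≤ P.m s * (P.m s * P.m s) := Nat.mul_le_mul_left _ (by nlinarith)
      _ = P.m s ^ 3 := by ring

theorem sum_m (P : Par) (t : ℕ) : ∑ s ∈ Finset.range t, P.m s ≤ P.m t := by
  induction t with
  | zero => simp
  | succ t ih =>
    rw [Finset.sum_range_succ, P.mS]
    have h := P.mpos t
    have : P.m t ^ 3 = P.m t * (P.m t * P.m t) := by ring
    rw [this]
    nlinarith [Nat.mul_le_mul_left (P.m t) (show 2 ≤ P.m t * P.m t by nlinarith)]

theorem mn_le (P : Par) {s : ℕ} (hs : 1 ≤ s) : (P.m s : ℝ) / P.n s ≤ (1 / 2) ^ (s + 1) := by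
  obtain ⟨r, rfl⟩ : ∃ r, s = r + 1 := ⟨s - 1, by omega⟩
  have h1 : P.m (r + 1) ^ 3 ≤ P.n (r + 1) := by
    refine le_trans ?_ (P.nS r)
    exact Nat.le_mul_of_pos_right _ (Nat.pow_pos (Nat.succ_pos _))
  have h2 : (P.m (r + 1) : ℝ) ^ 3 ≤ P.n (r + 1) := by exact_mod_cast h1
  have h3 : (2 : ℝ) ^ (r + 1 + 1) ≤ P.m (r + 1) := by exact_mod_cast m_ge P (r + 1)
  have h4 : (0 : ℝ) < P.m (r + 1) := P.mpos' _
  have h5 : (2 : ℝ) ≤ P.m (r + 1) := by exact_mod_cast P.mpos (r + 1)
  have h6 : (0 : ℝ) < (P.m (r + 1) : ℝ) ^ 3 := by positivity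
  calc (P.m (r + 1) : ℝ) / P.n (r + 1) ≤ P.m (r + 1) / (P.m (r + 1) : ℝ) ^ 3 := by gcongr
    _ = 1 / ((P.m (r + 1) : ℝ) * P.m (r + 1)) := by field_simp
    _ ≤ 1 / (2 ^ (r + 1 + 1) * 1) := by gcongr; linarith
    _ = (1 / 2) ^ (r + 1 + 1) := by rw [mul_one, one_div_pow]

theorem sum_half (t : ℕ) : ∑ s ∈ Finset.range t, ((1 : ℝ) / 2) ^ (s + 1) ≤ 1 := by
  have : ∑ s ∈ Finset.range t, ((1 : ℝ) / 2) ^ (s + 1) = 1 - (1 / 2) ^ t := by
    induction t with
    | zero => simp
    | succ t ih => rw [Finset.sum_range_succ, ih]; ring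
  rw [this]
  have : (0 : ℝ) ≤ (1 / 2) ^ t := by positivity
  linarith

theorem main : S_DEPH2 := by
  classical
  intro P j y f q hD I hI t ht g hg
  have hnn := W.nn hg
  refine (ev_sum_right I g hnn y).trans ?_
  have hinj : ∀ i ∈ I, ∀ l ∈ I, 2 * q i = 2 * q l → i = l := by
    intro i hi l hl h
    rcases lt_trichotomy i l with h1 | h1 | h1
    · have := hD.qm i l h1 (Finset.mem_range.mp (hI hl)); omega
    · exact h1
    · have := hD.qm l i h1 (Finset.mem_range.mp (hI hi)); omega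
  have hmt : (0 : ℝ) < P.m t := P.mpos' t
  have hmJ : (0 : ℝ) < P.m (2 * j + 1) := P.mpos' _
  have hJ1 : (1 : ℝ) ≤ P.m (2 * j + 1) := by
    have : (2 : ℝ) ≤ P.m (2 * j + 1) := by exact_mod_cast P.mpos (2 * j + 1)
    linarith
  set h : ℕ → ℝ := fun s => 12 * ((P.m s : ℝ) / P.m t + (1 / 2) ^ (s + 1)) with hh
  have hpt : ∀ i ∈ I, ev g (y i) ≤ 12 / (P.m (2 * j + 1) : ℝ) ^ 2 + (if 2 * q i = t then 12 else 0)
      + (if 2 * q i < t then h (2 * q i) else 0) := by
    intro i hi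
    have hiK := Finset.mem_range.mp (hI hi)
    have hE := hD.ex i hiK
    have hp : 0 ≤ 12 / (P.m (2 * j + 1) : ℝ) ^ 2 := by positivity
    rcases lt_trichotomy t (2 * q i) with h1 | h1 | h1
    · rw [if_neg (by omega), if_neg (by omega), add_zero, add_zero]
      refine (hE.lo t h1 g hg).trans ?_
      have h2 : P.m (2 * j + 2) ≤ P.m t := P.mlt.monotone ht
      have h3 : (P.m (2 * j + 1) : ℝ) ^ 2 ≤ P.m t := by
        have h4 : P.m (2 * j + 2) = P.m (2 * j + 1) ^ 3 := P.mS _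
        have h5 : (P.m (2 * j + 1) : ℝ) ^ 3 ≤ P.m t := by
          rw [h4] at h2; exact_mod_cast h2
        refine le_trans ?_ h5
        exact pow_le_pow_right₀ hJ1 (by norm_num)
      gcongr
    · rw [if_pos h1.symm, if_neg (by omega), add_zero]
      have := hE.all g ⟨_, hg⟩
      linarith
    · rw [if_neg (by omega), if_pos h1, add_zero]
      have h2 := hE.hi t h1 g hg
      have hq1 : 1 ≤ 2 * q i := by have := hD.qj i hiK; omega
      have h3 := mn_le P hq1
      have h4 : 12 * ((P.m (2 * q i) : ℝ) / P.m t + (P.m (2 * q i) : ℝ) / P.n (2 * q i)) ≤ h (2 * q i) := by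
        simp only [hh]
        gcongr
      linarith
  refine (Finset.sum_le_sum hpt).trans ?_
  rw [Finset.sum_add_distrib, Finset.sum_add_distrib, Finset.sum_const, nsmul_eq_mul]
  have s2 : ∑ i ∈ I, (if 2 * q i = t then (12 : ℝ) else 0) ≤ 12 := by
    rw [← Finset.sum_filter, Finset.sum_const, nsmul_eq_mul]
    have h1 : (I.filter (fun i => 2 * q i = t)).card ≤ 1 := by
      rw [Finset.card_le_one]
      intro a ha b hb
      rw [Finset.mem_filter] at ha hb
      exact hinj a ha.1 b hb.1 (by rw [ha.2, hb.2])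
    have h2 : ((I.filter (fun i => 2 * q i = t)).card : ℝ) ≤ 1 := by exact_mod_cast h1
    linarith
  have s3 : ∑ i ∈ I, (if 2 * q i < t then h (2 * q i) else 0) ≤ 24 := by
    rw [← Finset.sum_filter]
    have h1 : ∑ i ∈ I.filter (fun i => 2 * q i < t), h (2 * q i)
        = ∑ s ∈ (I.filter (fun i => 2 * q i < t)).image (fun i => 2 * q i), h s := by
      rw [Finset.sum_image]
      intro a ha b hb hab
      rw [Finset.mem_coe, Finset.mem_filter] at ha hb
      exact hinj a ha.1 b hb.1 hab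
    rw [h1]
    have h2 : ∑ s ∈ (I.filter (fun i => 2 * q i < t)).image (fun i => 2 * q i), h s
        ≤ ∑ s ∈ Finset.range t, h s := by
      refine Finset.sum_le_sum_of_subset_of_nonneg ?_ fun s _ _ => by simp only [hh]; positivity
      intro s hs
      rw [Finset.mem_image] at hs
      obtain ⟨i, hi, rfl⟩ := hs
      rw [Finset.mem_filter] at hi
      exact Finset.mem_range.mpr hi.2
    refine h2.trans ?_
    simp only [hh]
    rw [← Finset.mul_sum, Finset.sum_add_distrib, ← Finset.sum_div]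
    have h3 : (∑ s ∈ Finset.range t, (P.m s : ℝ)) / P.m t ≤ 1 := by
      rw [div_le_one hmt]
      exact_mod_cast sum_m P t
    have h4 := sum_half t
    linarith
  have hc : (I.card : ℝ) * (12 / (P.m (2 * j + 1) : ℝ) ^ 2) ≤ 24 / (P.m (2 * j + 1) : ℝ) ^ 2 * I.card := by
    have : (0 : ℝ) ≤ I.card * (12 / (P.m (2 * j + 1) : ℝ) ^ 2) := by positivity
    have e : 24 / (P.m (2 * j + 1) : ℝ) ^ 2 * I.card = 2 * (I.card * (12 / (P.m (2 * j + 1) : ℝ) ^ 2)) := by
      ring
    linarith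
  linarith

end Pool.Agent.W701.GZ
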